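import Pool.Agent.W2helper38.AC.Stm

/-!
# Project AC, piece E (gluing)
-/

set_option autoImplicit false

open Set Filter Topology Metric
open scoped ContDiff

noncomputable section

namespace Pool.Agent.W2helper78.AC
open Pool.Agent.W2helper38.AC

/-- the `i`-th column -/
def col (P : M) (i : Fin 3) : V := WithLp.toLp 2 (fun j => P j i)

/-- the `i`-th column as a linear map -/
def colL (i : Fin 3) : M →ₗ[ℝ] V where
  toFun P := col P i
  map_add' P Q := by ext j; rfl
  map_smul' r P := by ext j; rfl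

theorem col_contDiff (i : Fin 3) : ContDiff ℝ ∞ (fun P : M => col P i) :=
  (LinearMap.toContinuousLinearMap (colL i)).contDiff

/-- the cut-off functions -/
def chi (i : Fin 3) (P : M) : ℝ := Real.smoothTransition (12 * ‖col P i‖ ^ 2 - 3)

theorem chi_contDiff (i : Fin 3) : ContDiff ℝ ∞ (chi i) := by
  unfold chi
  have h1 : ContDiff ℝ ∞ (fun P : M => ‖col P i‖ ^ 2) := (col_contDiff i).norm_sq ℂ
  exact Real.smoothTransition.contDiff.comp ((contDiff_const.mul h1).sub contDiff_const)

theorem chi_nonneg (i : Fin 3) (P : M) : 0 ≤ chi i P := Real.smoothTransition.nonneg _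

def SS (P : M) : ℝ := ∑ i, chi i P

def den (P : M) : ℝ := SS P + Real.smoothTransition (1 - SS P)

theorem SS_contDiff : ContDiff ℝ ∞ SS := by
  unfold SS
  exact ContDiff.sum (fun i _ => chi_contDiff i)

theorem SS_nonneg (P : M) : 0 ≤ SS P := Finset.sum_nonneg (fun i _ => chi_nonneg i P)

theorem den_contDiff : ContDiff ℝ ∞ den := by
  unfold den
  exact SS_contDiff.add (Real.smoothTransition.contDiff.comp (contDiff_const.sub SS_contDiff))

theorem den_pos (P : M) : 0 < den P := by
  unfold den
  rcases (SS_nonneg P).eq_or_lt with h | h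
  · rw [← h, sub_zero, Real.smoothTransition.one]; norm_num
  · have := Real.smoothTransition.nonneg (1 - SS P)
    linarith

theorem den_eq {P : M} (h : 1 ≤ SS P) : den P = SS P := by
  unfold den
  rw [Real.smoothTransition.zero_of_nonpos (by linarith), add_zero]

theorem col_rk (z : V) (i : Fin 3) : col (rk z z) i = star (z i) • z := by
  ext j
  simp [col, rk, mul_comm]

theorem term_contDiff (h : ℝ × V → M) (hh : ContDiffOn ℝ ∞ h {q : ℝ × V | q.2 ≠ 0}) (i : Fin 3) :
    ContDiff ℝ ∞ (fun q : ℝ × M => chi i q.2 • h (q.1, col q.2 i)) := by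
  rw [contDiff_iff_contDiffAt]
  rintro ⟨t, P⟩
  have hcol : ContDiff ℝ ∞ (fun q : ℝ × M => col q.2 i) := (col_contDiff i).comp contDiff_snd
  by_cases hP : col P i = 0
  · have hev : (fun q : ℝ × M => chi i q.2 • h (q.1, col q.2 i)) =ᶠ[𝓝 (t, P)] fun _ => 0 := by
      have hopen : IsOpen {q : ℝ × M | 12 * ‖col q.2 i‖ ^ 2 < 3} :=
        isOpen_lt (continuous_const.mul (hcol.continuous.norm.pow 2)) continuous_const
      have hmem : (t, P) ∈ {q : ℝ × M | 12 * ‖col q.2 i‖ ^ 2 < 3} := by
        show 12 * ‖col P i‖ ^ 2 < 3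
        rw [hP]; norm_num
      filter_upwards [hopen.mem_nhds hmem] with q hq
      have hq' : 12 * ‖col q.2 i‖ ^ 2 < 3 := hq
      have : chi i q.2 = 0 := Real.smoothTransition.zero_of_nonpos (by linarith)
      rw [this, zero_smul]
    exact contDiffAt_const.congr_of_eventuallyEq hev
  · have h1 : ContDiffAt ℝ ∞ h (t, col P i) := by
      refine hh.contDiffAt ?_
      exact (isOpen_ne_fun continuous_snd continuous_const).mem_nhds hP
    have h2 : ContDiffAt ℝ ∞ (fun q : ℝ × M => h (q.1, col q.2 i)) (t, P) := by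
      have h3 : ContDiffAt ℝ ∞ (fun q : ℝ × M => (q.1, col q.2 i)) (t, P) :=
        (contDiff_fst.prodMk hcol).contDiffAt
      exact ContDiffAt.comp (t, P) h1 h3
    exact ((chi_contDiff i).comp contDiff_snd).contDiffAt.smul h2

theorem p_E : StmE := by
  intro h hh hhom
  refine ⟨fun q => (den q.2)⁻¹ • ∑ i, chi i q.2 • h (q.1, col q.2 i), ?_, ?_⟩
  · have h1 : ContDiff ℝ ∞ (fun q : ℝ × M => (den q.2)⁻¹) :=
      (den_contDiff.comp contDiff_snd).inv (fun q => (den_pos q.2).ne')
    have h2 : ContDiff ℝ ∞ (fun q : ℝ × M => ∑ i, chi i q.2 • h (q.1, col q.2 i)) :=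
      ContDiff.sum (fun i _ => term_contDiff h hh i)
    exact h1.smul h2
  · intro t z hz
    have hz0 : z ≠ 0 := by
      intro h0
      rw [h0, norm_zero] at hz
      exact zero_ne_one hz
    have hnorm : ∀ i, ‖col (rk z z) i‖ ^ 2 = ‖z i‖ ^ 2 := by
      intro i
      rw [col_rk, norm_smul, hz, mul_one, norm_star]
    have hterm : ∀ i, chi i (rk z z) • h (t, col (rk z z) i) = chi i (rk z z) • h (t, z) := by
      intro i
      by_cases hi : z i = 0
      · have : chi i (rk z z) = 0 := by
          unfold chi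
          rw [hnorm, hi]
          exact Real.smoothTransition.zero_of_nonpos (by norm_num)
        rw [this, zero_smul, zero_smul]
      · rw [col_rk, hhom t z _ hz0 (star_ne_zero.2 hi)]
    have hsum1 : ∑ i, ‖z i‖ ^ 2 = 1 := by
      rw [← EuclideanSpace.norm_sq_eq, hz, one_pow]
    have hS : 1 ≤ SS (rk z z) := by
      obtain ⟨i, -, hi⟩ : ∃ i ∈ Finset.univ, (1 / 3 : ℝ) ≤ ‖z i‖ ^ 2 := by
        apply Finset.exists_le_of_sum_le (s := (Finset.univ : Finset (Fin 3)))
          (f := fun _ => (1 / 3 : ℝ)) (g := fun i => ‖z i‖ ^ 2) Finset.univ_nonempty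
        rw [hsum1]; simp
      have h1 : chi i (rk z z) = 1 := by
        unfold chi
        rw [hnorm]
        exact Real.smoothTransition.one_of_one_le (by linarith)
      have h2 : chi i (rk z z) ≤ SS (rk z z) :=
        Finset.single_le_sum (f := fun i => chi i (rk z z)) (fun i _ => chi_nonneg i _)
          (Finset.mem_univ i)
      linarith
    show (den (rk z z))⁻¹ • ∑ i, chi i (rk z z) • h (t, col (rk z z) i) = h (t, z)
    rw [den_eq hS]
    simp only [hterm]
    rw [← Finset.sum_smul]
    show (SS (rk z z))⁻¹ • SS (rk z z) • h (t, z) = h (t, z)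
    rw [smul_smul, inv_mul_cancel₀ (by linarith), one_smul]

end Pool.Agent.W2helper78.AC
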