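import Pool.Agent.W2helper38.AC.Stm

/-!
# Project AC, piece C2 (kernel of the derivative)
-/

set_option autoImplicit false

open Set Filter Topology Metric
open scoped ContDiff

noncomputable section

namespace Pool.Agent.W2helper78.AC
open Pool.Agent.W2helper38.AC

/-- `ap` as a bilinear map over the reals -/
def apL : M →ₗ[ℝ] V →ₗ[ℝ] V where
  toFun A :=
    { toFun := fun z => ap A z
      map_add' := by
        intro z z'
        ext i
        simp [ap, mul_add, Finset.sum_add_distrib]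
      map_smul' := by
        intro r z
        ext i
        simp only [ap, PiLp.smul_apply, Complex.real_smul, RingHom.id_apply]
        rw [Finset.mul_sum]
        exact Finset.sum_congr rfl (fun j _ => by ring) }
  map_add' A B := by
    ext z i
    simp [ap, add_mul, Finset.sum_add_distrib]
  map_smul' r A := by
    ext z i
    simp only [ap, Pi.smul_apply, Complex.real_smul, RingHom.id_apply, LinearMap.smul_apply,
      LinearMap.coe_mk, AddHom.coe_mk, PiLp.smul_apply]
    rw [Finset.mul_sum]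
    exact Finset.sum_congr rfl (fun j _ => by ring)

def apC : M →L[ℝ] V →L[ℝ] V :=
  LinearMap.toContinuousLinearMap
    ((LinearMap.toContinuousLinearMap : (V →ₗ[ℝ] V) ≃ₗ[ℝ] (V →L[ℝ] V)).toLinearMap.comp apL)

theorem apC_apply (A : M) (z : V) : apC A z = ap A z := rfl

theorem ap_hasDerivAt {A : ℝ → M} {A' : M} {v : ℝ → V} {v' : V} {r : ℝ}
    (hA : HasDerivAt A A' r) (hv : HasDerivAt v v' r) :
    HasDerivAt (fun s => ap (A s) (v s)) (ap A' (v r) + ap (A r) v') r := by
  have h1 : HasDerivAt (fun s => apC (A s)) (apC A') r := apC.hasFDerivAt.comp_hasDerivAt r hA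
  exact h1.clm_apply hv

theorem inner_eq (z w : V) : inner ℂ z w = ∑ i, w i * star (z i) := by
  rw [PiLp.inner_apply]
  rfl

theorem ap_rk (a b v : V) : ap (rk a b) v = (inner ℂ b v : ℂ) • a := by
  ext i
  simp only [ap, rk, PiLp.smul_apply, smul_eq_mul]
  rw [inner_eq, Finset.sum_mul]
  exact Finset.sum_congr rfl (fun j _ => by ring)

theorem ap_add_left (A B : M) (v : V) : ap (A + B) v = ap A v + ap B v := by
  ext i
  simp [ap, add_mul, Finset.sum_add_distrib]

/-! ### the curve `z + r x` -/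

theorem curve_deriv (z x : V) (r : ℝ) : HasDerivAt (fun s : ℝ => z + s • x) x r := by
  have h := ((hasDerivAt_id r).smul_const x).const_add z
  simpa using h

theorem norm_sq_curve {z x : V} (hz : ‖z‖ = 1) (hzx : inner ℂ z x = (0 : ℂ)) (r : ℝ) :
    ‖z + r • x‖ ^ 2 = 1 + r ^ 2 * ‖x‖ ^ 2 := by
  rw [norm_add_sq (𝕜 := ℂ), hz]
  have h1 : inner ℂ z (r • x) = (0 : ℂ) := by
    rw [show (r • x : V) = (r : ℂ) • x from rfl, inner_smul_right, hzx, mul_zero]
  rw [h1, norm_smul]
  simp [mul_pow]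

theorem curve_ne {z x : V} (hz : ‖z‖ = 1) (hzx : inner ℂ z x = (0 : ℂ)) (r : ℝ) :
    z + r • x ≠ 0 := by
  intro h
  have h1 := norm_sq_curve hz hzx r
  rw [h, norm_zero] at h1
  have h2 : 0 ≤ r ^ 2 * ‖x‖ ^ 2 := by positivity
  linarith

theorem norm_sq_deriv {z x : V} (hz : ‖z‖ = 1) (hzx : inner ℂ z x = (0 : ℂ)) :
    HasDerivAt (fun r : ℝ => ‖z + r • x‖ ^ 2) 0 0 := by
  have h1 : (fun r : ℝ => ‖z + r • x‖ ^ 2) = fun r : ℝ => 1 + r ^ 2 * ‖x‖ ^ 2 :=
    funext (norm_sq_curve hz hzx)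
  rw [h1]
  have h2 := ((hasDerivAt_pow 2 (0 : ℝ)).mul_const (‖x‖ ^ 2)).const_add 1
  simpa using h2

theorem norm_deriv {z x : V} (hz : ‖z‖ = 1) (hzx : inner ℂ z x = (0 : ℂ)) :
    HasDerivAt (fun r : ℝ => ‖z + r • x‖) 0 0 := by
  have h1 : (fun r : ℝ => ‖z + r • x‖) = fun r : ℝ => √(‖z + r • x‖ ^ 2) := by
    funext r
    rw [Real.sqrt_sq (norm_nonneg _)]
  rw [h1]
  have h2 := (norm_sq_deriv hz hzx).sqrt (by simp [hz])
  simpa using h2

theorem pr_deriv {z x : V} (hz : ‖z‖ = 1) (hzx : inner ℂ z x = (0 : ℂ)) :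
    HasDerivAt (fun r : ℝ => pr (z + r • x)) (rk x z + rk z x) 0 := by
  rw [hasDerivAt_pi]
  intro i
  rw [hasDerivAt_pi]
  intro j
  have hi : ∀ i, HasDerivAt (fun r : ℝ => (z + r • x) i) (x i) 0 := by
    intro i
    have h1 : HasDerivAt (fun r : ℝ => z i + (r : ℂ) * x i) (x i) 0 := by
      have h2 := ((Complex.ofRealCLM.hasDerivAt (x := (0 : ℝ))).mul_const (x i)).const_add (z i)
      simpa using h2
    exact h1
  have h3 := (hi i).mul (hi j).star
  have h4 := (norm_sq_deriv hz hzx).ofReal_comp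
  have h5 := h3.div h4 (by simp [hz])
  unfold pr
  refine h5.congr_deriv ?_
  simp [hz, rk]

/-! ### the derivative of the map -/

section
variable {E : M → M} {z w x : V} {c : ℝ}

theorem Q_deriv (h2 : StmA2) (hE : Good E) (hz : ‖z‖ = 1) (hzx : inner ℂ z x = (0 : ℂ)) :
    HasDerivAt (fun r : ℝ => E (pr (z + r • x))) (fderiv ℝ E (rk z z) (rk x z + rk z x)) 0 := by
  have p0 : pr (z + (0 : ℝ) • x) = rk z z := by rw [zero_smul, add_zero, h2.2.2.1 z hz]
  have h1 : HasFDerivAt E (fderiv ℝ E (rk z z)) (pr (z + (0 : ℝ) • x)) := by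
    rw [p0]
    exact (hE.1.differentiable (by simp) _).hasFDerivAt
  exact h1.comp_hasDerivAt 0 (pr_deriv hz hzx)

theorem W_eq (h2 : StmA2) (hE : Good E) (hz : ‖z‖ = 1) (hw : ‖w‖ = 1)
    (hzx : inner ℂ z x = (0 : ℂ)) (hEz : E (rk z z) = rk w w) (W : M)
    (hW : W = fderiv ℝ E (rk z z) (rk x z + rk z x)) :
    W = rk (ap W w) w + rk w (ap W w) ∧ inner ℂ w (ap W w) = (0 : ℂ) := by
  have hQ := Q_deriv h2 hE hz hzx
  rw [← hW] at hQ
  have p0 : pr (z + (0 : ℝ) • x) = rk z z := by rw [zero_smul, add_zero, h2.2.2.1 z hz]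
  have hX : ∀ r : ℝ, E (pr (z + r • x)) ∈ X := fun r => hE.2.1 _ (h2.1 _ (curve_ne hz hzx r))
  have hij : ∀ i j, HasDerivAt (fun r : ℝ => E (pr (z + r • x)) i j) (W i j) 0 := fun i j =>
    (hasDerivAt_pi.1 ((hasDerivAt_pi.1 hQ) i)) j
  have hs : ∀ i j, W j i = star (W i j) := by
    intro i j
    have e : (fun r : ℝ => E (pr (z + r • x)) j i) = fun r : ℝ => star (E (pr (z + r • x)) i j) :=
      funext (fun r => (hX r).1 i j)
    have h3 := hij j i
    rw [e] at h3
    exact h3.unique (hij i j).star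
  have hm : ∀ i j, ∑ k, (W i k * rk w w k j + rk w w i k * W k j) = W i j := by
    intro i j
    have e : (fun r : ℝ => ∑ k, E (pr (z + r • x)) i k * E (pr (z + r • x)) k j) =
        fun r : ℝ => E (pr (z + r • x)) i j := funext (fun r => (hX r).2.1 i j)
    have h3 : HasDerivAt (fun r : ℝ => ∑ k, E (pr (z + r • x)) i k * E (pr (z + r • x)) k j)
        (∑ k, (W i k * E (pr (z + (0 : ℝ) • x)) k j + E (pr (z + (0 : ℝ) • x)) i k * W k j)) 0 :=
      HasDerivAt.fun_sum (fun k _ => (hij i k).mul (hij k j))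
    rw [e, p0, hEz] at h3
    exact h3.unique (hij i j)
  have hW1 : W = rk (ap W w) w + rk w (ap W w) := by
    funext i j
    rw [← hm i j, Finset.sum_add_distrib]
    show _ = rk (ap W w) w i j + rk w (ap W w) i j
    congr 1
    · simp only [rk, ap]
      rw [Finset.sum_mul]
      exact Finset.sum_congr rfl (fun k _ => by ring)
    · simp only [rk, ap]
      rw [star_sum, Finset.mul_sum]
      refine Finset.sum_congr rfl (fun k _ => ?_)
      rw [star_mul', ← hs]
      ring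
  refine ⟨hW1, ?_⟩
  have h3 : ap W w = ap W w + (inner ℂ (ap W w) w : ℂ) • w := by
    conv_lhs => rw [hW1]
    rw [ap_add_left, ap_rk, ap_rk]
    congr 1
    rw [inner_self_eq_norm_sq_to_K, hw]
    simp
  have h4 : (inner ℂ (ap W w) w : ℂ) • w = 0 := by
    have := h3.symm
    rwa [add_eq_left] at this
  have hw0 : w ≠ 0 := by
    intro h0
    rw [h0, norm_zero] at hw
    exact zero_ne_one hw
  have h5 : (inner ℂ (ap W w) w : ℂ) = 0 := (smul_eq_zero.1 h4).resolve_right hw0
  rw [← inner_conj_symm, h5, map_zero]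

/-- the derivative of `mm` in a direction orthogonal to `z` -/
theorem mm_deriv (h2 : StmA2) (hE : Good E) (hz : ‖z‖ = 1) (hw : ‖w‖ = 1) (hc : 0 < c)
    (hzw : inner ℂ z w = (c : ℂ))
    (hzx : inner ℂ z x = (0 : ℂ)) (hEz : E (rk z z) = rk w w) (W : M)
    (hW : W = fderiv ℝ E (rk z z) (rk x z + rk z x)) (t : ℝ) :
    HasDerivAt (fun r : ℝ => mm E (t, z + r • x))
      (((1 - t) * ((inner ℂ w x : ℂ).re + (inner ℂ z (ap W w) : ℂ).re)) • z + ((1 - t) * c) • x +
        t • ((c : ℂ) • ap W w + (inner ℂ (ap W w) z : ℂ) • w + (inner ℂ w x : ℂ) • w)) 0 := by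
  obtain ⟨hW1, hwy⟩ := W_eq h2 hE hz hw hzx hEz W hW
  set y := ap W w with hy
  have hQ := Q_deriv h2 hE hz hzx
  rw [← hW] at hQ
  have p0 : pr (z + (0 : ℝ) • x) = rk z z := by rw [zero_smul, add_zero, h2.2.2.1 z hz]
  have hv := curve_deriv z x 0
  have hwz : inner ℂ w z = (c : ℂ) := by
    rw [← inner_conj_symm, hzw, Complex.conj_ofReal]
  have hA0 := ap_hasDerivAt hQ hv
  have hA : HasDerivAt (fun s : ℝ => ap (E (pr (z + s • x))) (z + s • x))
      ((c : ℂ) • y + (inner ℂ y z : ℂ) • w + (inner ℂ w x : ℂ) • w) 0 := by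
    refine hA0.congr_deriv ?_
    rw [p0, hEz, ap_rk w w x, zero_smul, add_zero]
    congr 1
    conv_lhs => rw [hW1]
    rw [ap_add_left, ap_rk, ap_rk, hwz]
  have e0 : ap (E (pr (z + (0 : ℝ) • x))) (z + (0 : ℝ) • x) = (c : ℂ) • w := by
    rw [p0, hEz, zero_smul, add_zero, ap_rk, hwz]
  -- the function N
  have hN : HasDerivAt (fun s : ℝ =>
      (inner ℂ (z + s • x) (ap (E (pr (z + s • x))) (z + s • x)) : ℂ).re)
      (2 * c * ((inner ℂ w x : ℂ).re + (inner ℂ z y : ℂ).re)) 0 := by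
    have h3 := hv.inner ℂ hA
    have h4 := Complex.reCLM.hasFDerivAt.comp_hasDerivAt (0 : ℝ) h3
    refine h4.congr_deriv ?_
    rw [e0]
    simp only [zero_smul, add_zero, inner_add_right, inner_smul_right, hzw, Complex.reCLM_apply]
    have hr1 : (inner ℂ y z : ℂ).re = (inner ℂ z y : ℂ).re := by
      rw [← inner_conj_symm, Complex.conj_re]
    have hr2 : (inner ℂ x w : ℂ).re = (inner ℂ w x : ℂ).re := by
      rw [← inner_conj_symm, Complex.conj_re]
    simp only [Complex.add_re, Complex.mul_re, Complex.ofReal_re, Complex.ofReal_im, mul_zero,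
      sub_zero, zero_mul]
    rw [hr1, hr2]
    ring
  have eN : (inner ℂ (z + (0 : ℝ) • x) (ap (E (pr (z + (0 : ℝ) • x))) (z + (0 : ℝ) • x)) : ℂ).re =
      c ^ 2 := by
    rw [e0, zero_smul, add_zero, inner_smul_right, hzw]
    simp [sq]
  have hcc : HasDerivAt (fun s : ℝ => cc E (z + s • x))
      ((inner ℂ w x : ℂ).re + (inner ℂ z y : ℂ).re) 0 := by
    have h3 := hN.sqrt (by rw [eN]; positivity)
    have h4 := h3.div (norm_deriv hz hzx) (by simp [hz])
    unfold cc
    refine h4.congr_deriv ?_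
    rw [eN, Real.sqrt_sq hc.le]
    simp only [zero_smul, add_zero, hz]
    field_simp
    ring
  have ecc : cc E (z + (0 : ℝ) • x) = c := by
    unfold cc
    rw [eN, Real.sqrt_sq hc.le, zero_smul, add_zero, hz, div_one]
  have h5 : HasDerivAt (fun s : ℝ => ((1 - t) * cc E (z + s • x)) • (z + s • x)) _ 0 :=
    (hcc.const_mul (1 - t)).smul hv
  have h6 := h5.add (hA.const_smul t)
  unfold mm
  refine h6.congr_deriv ?_
  rw [ecc, zero_smul, add_zero]
  abel

theorem fderiv_dir (h1 : StmC1) (hE : Good E) (hz : ‖z‖ = 1) (t : ℝ) {x D : V} 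
    (h : HasDerivAt (fun r : ℝ => mm E (t, z + r • x)) D 0) :
    fderiv ℝ (fun v : V => mm E (t, v)) z x = D := by
  have hz0 : z ≠ 0 := by
    intro h0
    rw [h0, norm_zero] at hz
    exact zero_ne_one hz
  have hd : DifferentiableAt ℝ (mm E) (t, z) := by
    have h3 := (h1 E hE).1
    have h4 : ContDiffAt ℝ ∞ (mm E) (t, z) :=
      h3.contDiffAt ((isOpen_ne_fun continuous_snd continuous_const).mem_nhds hz0)
    exact h4.differentiableAt (by simp)
  have hp : DifferentiableAt ℝ (fun v : V => (t, v)) z :=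
    (differentiableAt_const t).prodMk differentiableAt_id
  have hd2 : DifferentiableAt ℝ (mm E ∘ fun v : V => (t, v)) z := DifferentiableAt.comp z hd hp
  have hd3 : HasFDerivAt (fun v : V => mm E (t, v)) (fderiv ℝ (fun v : V => mm E (t, v)) z)
      (z + (0 : ℝ) • x) := by
    rw [zero_smul, add_zero]
    exact hd2.hasFDerivAt
  have h7 : HasDerivAt ((fun v : V => mm E (t, v)) ∘ fun s : ℝ => z + s • x)
      (fderiv ℝ (fun v : V => mm E (t, v)) z x) 0 :=
    hd3.comp_hasDerivAt (0 : ℝ) (curve_deriv z x 0)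
  exact h7.unique h

/-- the derivative of `mm` in the direction `l z` -/
theorem mm_deriv_self (h1 : StmC1) (hE : Good E) (t : ℝ) (l : ℂ) :
    HasDerivAt (fun r : ℝ => mm E (t, z + r • (l • z))) (l • mm E (t, z)) 0 := by
  have h3 : HasDerivAt (fun r : ℝ => (1 + (r : ℂ) * l) • mm E (t, z)) (l • mm E (t, z)) 0 := by
    have h4 : HasDerivAt (fun r : ℝ => 1 + (r : ℂ) * l) l 0 := by
      have h2 := ((Complex.ofRealCLM.hasDerivAt (x := (0 : ℝ))).mul_const l).const_add 1
      simpa using h2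
    exact h4.smul_const _
  refine h3.congr_of_eventuallyEq ?_
  have hne : ∀ᶠ r : ℝ in 𝓝 0, 1 + (r : ℂ) * l ≠ 0 := by
    have hc : Continuous (fun r : ℝ => 1 + (r : ℂ) * l) := by fun_prop
    exact hc.continuousAt.eventually_ne (by simp)
  filter_upwards [hne] with r hr
  have e : z + r • (l • z) = (1 + (r : ℂ) * l) • z := by
    rw [add_smul, one_smul, mul_smul]
    rfl
  rw [e, (h1 E hE).2.1 t z _ hr]

end

theorem p_C2 : StmA1 → StmA2 → StmA3 → StmC1 → StmC2 := by
  intro _ h2 _ h1 E hE z w c t hz hw hc hzw hEz ζ hζ hker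
  have hz0 : z ≠ 0 := by
    intro h0
    rw [h0, norm_zero] at hz
    exact zero_ne_one hz
  set l : ℂ := inner ℂ z ζ with hl
  set x : V := ζ - l • z with hx
  have hzx : inner ℂ z x = (0 : ℂ) := by
    rw [hx, inner_sub_right, inner_smul_right, inner_self_eq_norm_sq_to_K, hz, ← hl]
    simp
  have hζe : ζ = l • z + x := by rw [hx]; abel
  set W := fderiv ℝ E (rk z z) (rk x z + rk z x) with hW
  obtain ⟨hW1, hwy⟩ := W_eq h2 hE hz hw hzx hEz W hW
  have hwz : inner ℂ w z = (c : ℂ) := by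
    rw [← inner_conj_symm, hzw, Complex.conj_ofReal]
  have d1 := fderiv_dir h1 hE hz t (mm_deriv_self (z := z) h1 hE t l)
  have d2 := fderiv_dir h1 hE hz t (mm_deriv h2 hE hz hw hc hzw hzx hEz W hW t)
  have hne := (h1 E hE).2.2.1 t z hz0
  have hsum : l • mm E (t, z) + fderiv ℝ (fun v : V => mm E (t, v)) z x = 0 := by
    rw [← d1, ← map_add, ← hζe, hker]
  have hx0 : x ≠ 0 := by
    intro h0
    rw [h0, map_zero, add_zero] at hsum
    have hl0 : l = 0 := (smul_eq_zero.1 hsum).resolve_right hne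
    rw [h0, hl0, zero_smul, add_zero] at hζe
    exact hζ hζe
  rw [d2] at hsum
  -- the value of `mm`
  have hpz : pr z = rk z z := h2.2.2.1 z hz
  have hap : ap (E (pr z)) z = (c : ℂ) • w := by
    rw [hpz, hEz, ap_rk, hwz]
  have hcc : cc E z = c := by
    unfold cc
    rw [hap, inner_smul_right, hzw, hz, div_one]
    have : ((c : ℂ) * (c : ℂ)).re = c ^ 2 := by simp [sq]
    rw [this, Real.sqrt_sq hc.le]
  have hmm : mm E (t, z) = ((1 - t) * c) • z + t • ((c : ℂ) • w) := by
    unfold mm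
    simp only
    rw [hcc, hap]
  rw [hmm] at hsum
  refine ⟨x, ap W w, -l - (((inner ℂ w x : ℂ).re + (inner ℂ z (ap W w) : ℂ).re) / c : ℝ), hx0, hzx,
    hwy, ?_, ?_⟩
  · rw [← hW]; exact hW1
  · set y := ap W w with hy
    have hq : (inner ℂ y z : ℂ) = (starRingEnd ℂ) (inner ℂ z y) := (inner_conj_symm _ _).symm
    rw [hq] at hsum
    generalize (inner ℂ w x : ℂ) = P at hsum ⊢
    generalize (inner ℂ z y : ℂ) = Q at hsum ⊢
    have hQ : (starRingEnd ℂ) Q = (Q.re : ℂ) - Complex.I * (Q.im : ℂ) := by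
      apply Complex.ext <;> simp
    have hP : P = (P.re : ℂ) + Complex.I * (P.im : ℂ) := by
      apply Complex.ext <;> simp
    rw [hQ] at hsum
    ext i
    have hi := congrArg (fun v : V => v i) hsum
    simp only [PiLp.add_apply, PiLp.smul_apply, smul_eq_mul, Complex.real_smul, PiLp.zero_apply] at hi ⊢
    have hcC : (c : ℂ) ≠ 0 := by exact_mod_cast hc.ne'
    push_cast at hi ⊢
    field_simp
    linear_combination hi - (t : ℂ) * w i * hP

end Pool.Agent.W2helper78.AC
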